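import Pool.Agent.Lib_helper34.NF.Defs

set_option autoImplicit false

namespace Pool.Agent.NF

open Set Filter Topology MeasureTheory ComplexConjugate

/-- BLOCK REPAR: constant speed parametrisation of a regular `C^1` curve -/
theorem repar_proof (σ σx : ℝ → ℂ)
    (h : ∀ x ∈ Icc (0 : ℝ) 1, HasDerivWithinAt σ (σx x) (Icc (0 : ℝ) 1) x)
    (hc : ContinuousOn σx (Icc (0 : ℝ) 1)) (hr : ∀ x ∈ Icc (0 : ℝ) 1, σx x ≠ 0) :
    ∃ φ φ' : ℝ → ℝ, Continuous φ' ∧ (∀ s, HasDerivAt φ (φ' s) s) ∧ (∀ s, 0 < φ' s) ∧ φ 0 = 0 ∧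
      φ 1 = 1 ∧ (∀ s ∈ Icc (0 : ℝ) 1, φ s ∈ Icc (0 : ℝ) 1) ∧
      (∀ s ∈ Icc (0 : ℝ) 1, HasDerivWithinAt (fun s => σ (φ s))
        (((∫ x in (0 : ℝ)..1, ‖σx x‖ : ℝ) : ℂ) * tau (σx (φ s))) (Icc (0 : ℝ) 1) s) := by
  -- the extended speed
  set v : ℝ → ℝ := IccExtend (zero_le_one (α := ℝ)) (fun x : Icc (0 : ℝ) 1 => ‖σx x‖) with hv
  have hvcont : Continuous v := by
    apply Continuous.Icc_extend'
    exact (continuousOn_iff_continuous_domRestrict.1 hc).norm
  have hveq : ∀ x ∈ Icc (0 : ℝ) 1, v x = ‖σx x‖ := by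
    intro x hx
    simp only [hv]
    rw [IccExtend_of_mem _ _ hx]
  -- lower bound of the speed
  obtain ⟨x0, hx0, hmin⟩ := isCompact_Icc.exists_isMinOn (nonempty_Icc.2 (zero_le_one (α := ℝ)))
    hc.norm
  set m : ℝ := ‖σx x0‖ with hm
  have hmpos : 0 < m := norm_pos_iff.2 (hr x0 hx0)
  have hvm : ∀ x, m ≤ v x := by
    intro x
    simp only [hv, IccExtend, Function.comp]
    exact hmin (projIcc 0 1 zero_le_one x).2
  have hvpos : ∀ x, 0 < v x := fun x => lt_of_lt_of_le hmpos (hvm x)
  set L : ℝ := ∫ x in (0 : ℝ)..1, ‖σx x‖ with hL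
  have hLv : L = ∫ x in (0 : ℝ)..1, v x := by
    rw [hL]
    apply intervalIntegral.integral_congr
    intro x hx
    rw [uIcc_of_le zero_le_one] at hx
    exact (hveq x hx).symm
  have hLpos : 0 < L := by
    rw [hLv]
    exact intervalIntegral.intervalIntegral_pos_of_pos (hvcont.intervalIntegrable _ _)
      hvpos zero_lt_one
  set ψ : ℝ → ℝ := fun x => (∫ y in (0 : ℝ)..x, v y) / L with hψ
  have hψd : ∀ x, HasDerivAt ψ (v x / L) x := by
    intro x
    have := intervalIntegral.integral_hasDerivAt_right (hvcont.intervalIntegrable 0 x)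
      (hvcont.stronglyMeasurableAtFilter _ _) hvcont.continuousAt
    exact this.div_const L
  have hψpos : ∀ x, 0 < v x / L := fun x => div_pos (hvpos x) hLpos
  have hψmono : StrictMono ψ := by
    apply strictMono_of_deriv_pos
    intro x
    rw [(hψd x).deriv]
    exact hψpos x
  have hψcont : Continuous ψ := continuous_iff_continuousAt.2 fun x => (hψd x).continuousAt
  have hψ0 : ψ 0 = 0 := by simp [hψ]
  have hψ1 : ψ 1 = 1 := by
    simp only [hψ]
    rw [← hLv]
    exact div_self hLpos.ne'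
  -- growth
  have hgrow : ∀ x y, x ≤ y → m / L * (y - x) ≤ ψ y - ψ x := by
    intro x y hxy
    have h1 : ψ y - ψ x = (∫ z in x..y, v z) / L := by
      simp only [hψ]
      rw [← sub_div, intervalIntegral.integral_interval_sub_left (hvcont.intervalIntegrable _ _)
        (hvcont.intervalIntegrable _ _)]
    rw [h1]
    have h2 : (y - x) * m ≤ ∫ z in x..y, v z := by
      have := intervalIntegral.integral_mono_on (μ := volume) (a := x) (b := y)
        (f := fun _ : ℝ => m) (g := v) hxy
        (continuous_const.intervalIntegrable _ _) (hvcont.intervalIntegrable _ _) (fun z _ => hvm z)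
      simpa using this
    rw [div_mul_eq_mul_div, div_le_div_iff_of_pos_right hLpos]
    linarith
  have hsurj : Function.Surjective ψ := by
    apply hψcont.surjective
    · apply tendsto_atTop_mono' atTop _ (tendsto_id.const_mul_atTop (div_pos hmpos hLpos))
      filter_upwards [eventually_ge_atTop (0 : ℝ)] with x hx
      have := hgrow 0 x hx
      rw [hψ0] at this
      try simp only [id]
      linarith
    · apply tendsto_atBot_mono' atBot _ (tendsto_id.const_mul_atBot (div_pos hmpos hLpos))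
      filter_upwards [eventually_le_atBot (0 : ℝ)] with x hx
      have := hgrow x 0 hx
      rw [hψ0] at this
      try simp only [id]
      linarith
  set e : ℝ ≃o ℝ := hψmono.orderIsoOfSurjective ψ hsurj with he
  have hee : ∀ x, e x = ψ x := fun x => rfl
  set φ : ℝ → ℝ := fun s => e.symm s with hφ
  have hφcont : Continuous φ := e.symm.continuous
  have hψφ : ∀ s, ψ (φ s) = s := fun s => by
    rw [← hee]; exact e.apply_symm_apply s
  have hφψ : ∀ x, φ (ψ x) = x := fun x => by
    rw [← hee]; exact e.symm_apply_apply x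
  have hφ0 : φ 0 = 0 := by
    have := hφψ 0
    rwa [hψ0] at this
  have hφ1 : φ 1 = 1 := by
    have := hφψ 1
    rwa [hψ1] at this
  have hφd : ∀ s, HasDerivAt φ (L / v (φ s)) s := by
    intro s
    have := HasDerivAt.of_local_left_inverse (f := ψ) (g := φ) (a := s) hφcont.continuousAt
      (hψd (φ s)) (hψpos _).ne' (Eventually.of_forall hψφ)
    rwa [inv_div] at this
  have hmaps : ∀ s ∈ Icc (0 : ℝ) 1, φ s ∈ Icc (0 : ℝ) 1 := by
    intro s hs
    constructor
    · rw [← hφ0]
      exact e.symm.monotone hs.1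
    · rw [← hφ1]
      exact e.symm.monotone hs.2
  refine ⟨φ, fun s => L / v (φ s), ?_, hφd, fun s => div_pos hLpos (hvpos _), hφ0, hφ1, hmaps, ?_⟩
  · exact continuous_const.div (hvcont.comp hφcont) fun s => (hvpos _).ne'
  · intro s hs
    have h1 := (h (φ s) (hmaps s hs)).scomp s (hφd s).hasDerivWithinAt hmaps
    have h2 : (L / v (φ s)) • σx (φ s) = (L : ℂ) * tau (σx (φ s)) := by
      rw [hveq _ (hmaps s hs), tau, Complex.real_smul]
      push_cast
      ring
    rw [h2] at h1
    exact h1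

end Pool.Agent.NF
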